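import Mathlib

set_option autoImplicit false

open Finset

namespace Pool.Agent.P.MP_a38e10_co

/-- The non-edges of the 11-vertex core graph. -/
def nonE : List (Fin 11 × Fin 11) :=
  [(0, 4), (0, 5), (0, 6), (0, 7), (1, 5), (1, 8), (1, 9), (2, 4), (2, 9), (2, 10), (3, 5), (3, 6),
   (3, 8), (3, 9), (4, 8), (5, 10), (6, 10), (7, 8), (7, 9), (7, 10)]

/-- The adjacency table of the core graph. -/
def adjB (a b : Fin 11) : Bool := Nat.testBit 1032852425922927745116235950597795598 (11 * a.1 + b.1)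

/-- Adjacency in the core graph. -/
def hadj (a b : Fin 11) : Prop := adjB a b = true

instance : DecidableRel hadj := fun a b => inferInstanceAs (Decidable (adjB a b = true))

theorem hadj_symm : ∀ a b, hadj a b → hadj b a := by decide +kernel

theorem hadj_irrefl : ∀ a, ¬ hadj a a := by decide +kernel

theorem hadj_of : ∀ a b, a ≠ b → (a, b) ∉ nonE → (b, a) ∉ nonE → hadj a b := by decide +kernel

theorem core_clique' : ∀ a b, hadj a b → ∀ c, hadj a c → hadj b c → ∀ d, hadj a d → hadj b d →
    hadj c d → ∀ e, hadj a e → hadj b e → hadj c e → ¬ hadj d e := by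
  decide +kernel

theorem core_clique (S : Finset (Fin 11)) (h : ∀ a ∈ S, ∀ b ∈ S, a ≠ b → hadj a b) : #S ≤ 4 := by
  by_contra hc
  have h5 : 5 ≤ #S := by omega
  have hm := S.orderEmbOfCardLe_mem h5
  have k : ∀ i j : Fin 5, i ≠ j → hadj (S.orderEmbOfCardLe h5 i) (S.orderEmbOfCardLe h5 j) :=
    fun i j hij => h _ (hm i) _ (hm j) fun e => hij ((S.orderEmbOfCardLe h5).injective e)
  exact core_clique' _ _ (k 0 1 (by decide)) _ (k 0 2 (by decide)) (k 1 2 (by decide)) _
    (k 0 3 (by decide)) (k 1 3 (by decide)) (k 2 3 (by decide)) _ (k 0 4 (by decide))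
    (k 1 4 (by decide)) (k 2 4 (by decide)) (k 3 4 (by decide))

/-- The attachment sets: an induced five-cycle (as a bit mask) and one more vertex. -/
def cands : List (ℕ × Fin 11) :=
  [(425, 2), (1704, 4), (419, 2), (1698, 4), (1109, 1), (345, 1), (1612, 1), (790, 6), (796, 6), (307, 3), (1574, 3), (457, 2), (1736, 4), (1077, 1), (1077, 3), (796, 5), (675, 3), (313, 6), (313, 9), (313, 10), (681, 6), (713, 2), (1442, 3), (1580, 0), (1580, 8), (1448, 6)]

/-- The vertex set with a given bit mask. -/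
def tau (m : ℕ) : Finset (Fin 11) := {a | Nat.testBit m a.1 = true}

theorem mem_tau {m : ℕ} {a : Fin 11} : a ∈ tau m ↔ Nat.testBit m a.1 = true := by simp [tau]

theorem cands_card : ∀ t ∈ cands, #(tau t.1) = 5 ∧ t.2 ∉ tau t.1 := by decide +kernel

set_option synthInstance.maxSize 2000 in
theorem cands_tri : ∀ t ∈ cands, ∀ a : Fin 11, Nat.testBit t.1 a.1 = true →
    ∀ b : Fin 11, Nat.testBit t.1 b.1 = true → a ≠ b → ∀ c : Fin 11, Nat.testBit t.1 c.1 = true →
      a ≠ c → b ≠ c → ¬ (hadj a b ∧ hadj a c ∧ hadj b c) ∧ (hadj a b ∨ hadj a c ∨ hadj b c) := by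
  decide +kernel

theorem cands_clique (t : ℕ × Fin 11) (ht : t ∈ cands) (S : Finset (Fin 11)) (hS : S ⊆ tau t.1)
    (h : ∀ a ∈ S, ∀ b ∈ S, a ≠ b → hadj a b) : #S ≤ 2 := by
  by_contra hc
  obtain ⟨a, ha, b, hb, c, hc, h1, h2, h3⟩ := two_lt_card.1 (not_le.1 hc)
  exact (cands_tri t ht a (mem_tau.1 (hS ha)) b (mem_tau.1 (hS hb)) h1 c (mem_tau.1 (hS hc))
    h2 h3).1 ⟨h a ha b hb h1, h a ha c hc h2, h b hb c hc h3⟩

theorem cands_indep (t : ℕ × Fin 11) (ht : t ∈ cands) (S : Finset (Fin 11)) (hS : S ⊆ tau t.1)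
    (h : ∀ a ∈ S, ∀ b ∈ S, a ≠ b → ¬ hadj a b) : #S ≤ 2 := by
  by_contra hc
  obtain ⟨a, ha, b, hb, c, hc, h1, h2, h3⟩ := two_lt_card.1 (not_le.1 hc)
  rcases (cands_tri t ht a (mem_tau.1 (hS ha)) b (mem_tau.1 (hS hb)) h1 c (mem_tau.1 (hS hc))
    h2 h3).2 with e | e | e
  exacts [h a ha b hb h1 e, h a ha c hc h2 e, h b hb c hc h3 e]

/-- Two non-edges that cannot both be monochromatic. -/
def conflict (e f : Fin 11 × Fin 11) : Bool :=
  (e.1.1 == f.1.1 && adjB e.2 f.2) || (e.1.1 == f.2.1 && adjB e.2 f.1) ||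
    (e.2.1 == f.1.1 && adjB e.1 f.2) || (e.2.1 == f.2.1 && adjB e.1 f.1)

/-- Some attachment set contains none of the listed pairs. -/
def good (l : List (Fin 11 × Fin 11)) : Bool :=
  cands.any fun t => l.all fun e =>
    !((e.1.1 == t.2.1 || Nat.testBit t.1 e.1.1) && (e.2.1 == t.2.1 || Nat.testBit t.1 e.2.1))

/-- Search over all matchings of non-edges. -/
def chk : List (Fin 11 × Fin 11) → List (Fin 11 × Fin 11) → Bool
  | [], l => good l
  | e :: es, l => chk es l && (l.any (conflict e) || chk es (e :: l))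

theorem chk_true : chk nonE [] = true := by decide +kernel

theorem chk_sound (c : Fin 11 → ℕ) (hc : ∀ a b, hadj a b → c a ≠ c b) :
    ∀ (es l : List (Fin 11 × Fin 11)), chk es l = true → (∀ e ∈ l, c e.1 = c e.2) →
      ∃ l', good l' = true ∧ (∀ e ∈ l, e ∈ l') ∧ ∀ e ∈ es, c e.1 = c e.2 → e ∈ l' := by
  intro es
  induction es with
  | nil => intro l h _; exact ⟨l, h, fun _ h => h, by simp⟩
  | cons e es ih =>
    intro l h hl
    simp only [chk, Bool.and_eq_true, Bool.or_eq_true, List.any_eq_true] at h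
    by_cases he : c e.1 = c e.2
    · rcases h.2 with ⟨f, hf, hcf⟩ | h2
      · exfalso
        have hf' := hl f hf
        simp only [conflict, Bool.or_eq_true, Bool.and_eq_true, beq_iff_eq, Fin.val_inj] at hcf
        rcases hcf with ((⟨h1, h2⟩ | ⟨h1, h2⟩) | ⟨h1, h2⟩) | ⟨h1, h2⟩
        · exact hc _ _ h2 (by rw [← he, h1, hf'])
        · exact hc _ _ h2 (by rw [← he, h1, hf'])
        · exact hc _ _ h2 (by rw [he, h1, hf'])
        · exact hc _ _ h2 (by rw [he, h1, hf'])
      · obtain ⟨l', h1, h2, h3⟩ := ih (e :: l) h2 (by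
          intro f hf
          rcases List.mem_cons.1 hf with rfl | hf
          · exact he
          · exact hl f hf)
        refine ⟨l', h1, fun f hf => h2 f (List.mem_cons_of_mem _ hf), fun f hf hf' => ?_⟩
        rcases List.mem_cons.1 hf with rfl | hf
        · exact h2 _ List.mem_cons_self
        · exact h3 f hf hf'
    · obtain ⟨l', h1, h2, h3⟩ := ih l h.1 hl
      refine ⟨l', h1, h2, fun f hf hf' => ?_⟩
      rcases List.mem_cons.1 hf with rfl | hf
      · exact (he hf').elim
      · exact h3 f hf hf'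

/-- Every proper colouring of the core graph is injective on some attachment set. -/
theorem rainbow (c : Fin 11 → ℕ) (hc : ∀ a b, hadj a b → c a ≠ c b) :
    ∃ t ∈ cands, ∀ a ∈ insert t.2 (tau t.1), ∀ b ∈ insert t.2 (tau t.1), a ≠ b → c a ≠ c b := by
  obtain ⟨l, h1, -, h3⟩ := chk_sound c hc nonE [] chk_true (by simp)
  simp only [good, List.any_eq_true, List.all_eq_true] at h1
  obtain ⟨t, ht, h⟩ := h1
  have h' : ∀ e ∈ l, ¬ (e.1 ∈ insert t.2 (tau t.1) ∧ e.2 ∈ insert t.2 (tau t.1)) := by
    intro e he hh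
    have := h e he
    simp only [mem_insert, mem_tau] at hh
    simp only [Bool.not_eq_true', ← Bool.not_eq_true, Bool.and_eq_true, Bool.or_eq_true,
      beq_iff_eq, Fin.val_inj] at this
    exact this hh
  refine ⟨t, ht, fun a ha b hb hab hcab => ?_⟩
  by_cases e1 : (a, b) ∈ nonE
  · exact h' _ (h3 _ e1 hcab) ⟨ha, hb⟩
  by_cases e2 : (b, a) ∈ nonE
  · exact h' _ (h3 _ e2 hcab.symm) ⟨hb, ha⟩
  exact hc a b (hadj_of a b hab e1 e2) hcab

/-- A partition of the core graph into three cliques. -/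
def part (a : Fin 11) : ℕ := a.1 / 4

theorem part_lt : ∀ a, part a < 3 := by decide

theorem part_clique : ∀ a b, a ≠ b → part a = part b → hadj a b := by decide +kernel

/-- A proper colouring of the core graph with six colours. -/
def col6 : Fin 11 → ℕ := ![0, 1, 2, 3, 2, 4, 3, 5, 5, 1, 4]

theorem col6_lt : ∀ a, col6 a < 6 := by decide

theorem col6_proper : ∀ a b, hadj a b → col6 a ≠ col6 b := by decide +kernel

/-- Mycielski graphs with the apex removed: triangle-free, s-colourable, with an independent set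
that receives every colour in each colouring with s colours. -/
theorem gadget (s : ℕ) : ∃ (V : Type) (_ : Finite V) (r : V → V → Prop) (S : V → Prop)
    (col : V → ℕ), (∀ a b, r a b → r b a) ∧ (∀ a b c, r a b → r a c → r b c → False) ∧
    (∀ a b, S a → S b → ¬ r a b) ∧ (∀ a, col a < s) ∧ (∀ a b, r a b → col a ≠ col b) ∧
    ∀ (P : Finset ℕ) (c : V → ℕ), #P ≤ s → (∀ a b, r a b → c a ≠ c b) → (∀ a, c a ∈ P) →
      ∀ x ∈ P, ∃ a, S a ∧ c a = x := by
  classical
  induction s with
  | zero =>
    refine ⟨Empty, inferInstance, fun _ _ => False, fun _ => False, fun _ => 0, by simp, by simp,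
      by simp, by simp, by simp, ?_⟩
    intro P c hP _ _ x hx
    rw [Nat.le_zero, card_eq_zero] at hP
    simp [hP] at hx
  | succ s ih =>
    obtain ⟨V, hV, r, S, col, hs, ht, hS, hc1, hc2, hP⟩ := ih
    let q : Option V → Option V → Prop := fun a b =>
      match a, b with
      | none, none => False
      | none, some b => S b
      | some a, none => S a
      | some a, some b => r a b
    have qs : ∀ a b, q a b → q b a := by
      rintro (_ | a) (_ | b) h
      exacts [h, h, h, hs _ _ h]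
    have qt : ∀ a b c, q a b → q a c → q b c → False := by
      rintro (_ | a) (_ | b) (_ | c) h1 h2 h3
      exacts [h1, h1, h2, hS _ _ h1 h2 h3, h3, hS _ _ h1 h3 h2, hS _ _ h2 h3 h1, ht _ _ _ h1 h2 h3]
    let cq : Option V → ℕ := fun a => match a with
      | none => s
      | some a => col a
    have cq1 : ∀ a, cq a < s + 1 := by
      rintro (_ | a)
      exacts [Nat.lt_succ_self _, Nat.lt_succ_of_lt (hc1 a)]
    have cq2 : ∀ a b, q a b → cq a ≠ cq b := by
      rintro (_ | a) (_ | b) h
      exacts [h.elim, (hc1 b).ne', (hc1 a).ne, hc2 _ _ h]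
    refine ⟨Option V × Bool, inferInstance, fun a b => q a.1 b.1 ∧ ¬ (a.2 = true ∧ b.2 = true),
      fun a => a.2 = true, fun a => cq a.1, fun a b h => ⟨qs _ _ h.1, fun h' => h.2 h'.symm⟩,
      fun a b c h1 h2 h3 => qt _ _ _ h1.1 h2.1 h3.1, fun a b ha hb h => h.2 ⟨ha, hb⟩,
      fun a => cq1 _, fun a b h => cq2 _ _ h.1, ?_⟩
    intro P c hPs hc hcP x hx
    by_contra hcon
    push Not at hcon
    let c' : Option V → ℕ := fun a => if c (a, false) = x then c (a, true) else c (a, false)
    have h1 : ∀ a, c' a ∈ P.erase x := by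
      intro a
      by_cases h : c (a, false) = x
      · simp only [c', if_pos h]
        exact mem_erase.2 ⟨hcon (a, true) rfl, hcP _⟩
      · simp only [c', if_neg h]
        exact mem_erase.2 ⟨h, hcP _⟩
    have h2 : ∀ a b, q a b → c' a ≠ c' b := by
      intro a b hab
      have e0 : c (a, false) ≠ c (b, false) := hc _ _ ⟨hab, by simp⟩
      have e1 : c (a, true) ≠ c (b, false) := hc _ _ ⟨hab, by simp⟩
      have e2 : c (a, false) ≠ c (b, true) := hc _ _ ⟨hab, by simp⟩
      by_cases ha : c (a, false) = x <;> by_cases hb : c (b, false) = x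
      · exact (e0 (ha.trans hb.symm)).elim
      · simpa only [c', if_pos ha, if_neg hb] using e1
      · simpa only [c', if_neg ha, if_pos hb] using e2
      · simpa only [c', if_neg ha, if_neg hb] using e0
    obtain ⟨a, ha, hca⟩ := hP (P.erase x) (fun a => c' (some a))
      (by rw [card_erase_of_mem hx]; omega) (fun a b h => h2 (some a) (some b) h)
      (fun a => h1 _) (c' none) (h1 _)
    exact h2 (some a) none ha hca

end Pool.Agent.P.MP_a38e10_co
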