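import Mathlib
import Pool.Agent.P.MP_a38e10_co.Core

set_option autoImplicit false

open Finset

namespace Pool.Agent.P.MP_a38e10_co

/-- The core graph with copies of a gadget attached. -/
def glue {V : Type} (k : ℕ) (r : V → V → Prop) (S : V → Prop) (hs : ∀ a b, r a b → r b a)
    (hi : ∀ a, ¬ r a a) : SimpleGraph (Fin 11 ⊕ ({t // t ∈ cands} × Fin k × V)) where
  Adj x y :=
    match x, y with
    | Sum.inl a, Sum.inl b => hadj a b
    | Sum.inl a, Sum.inr y => a ∈ tau y.1.1.1 ∨ (a = y.1.1.2 ∧ S y.2.2)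
    | Sum.inr y, Sum.inl a => a ∈ tau y.1.1.1 ∨ (a = y.1.1.2 ∧ S y.2.2)
    | Sum.inr x, Sum.inr y => x.1 = y.1 ∧ x.2.1 = y.2.1 ∧ r x.2.2 y.2.2
  symm := ⟨by
    rintro (a | x) (b | y) h
    exacts [hadj_symm _ _ h, h, h, ⟨h.1.symm, h.2.1.symm, hs _ _ h.2.2⟩]⟩
  loopless := ⟨by
    rintro (a | x) h
    exacts [hadj_irrefl _ h, hi _ h.2.2]⟩

theorem main (s : ℕ) : ∃ (W : Type) (_ : Finite W) (G : SimpleGraph W), G.CliqueFree 5 ∧
    (∃ c : W → Fin (s + 3), ∀ i, G.IsClique (c ⁻¹' {i}) ∨ G.IsIndepSet (c ⁻¹' {i})) ∧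
    (∀ j, (∃ c : W → Fin j, ∀ i, G.IsClique (c ⁻¹' {i}) ∨ G.IsIndepSet (c ⁻¹' {i})) →
      s + 3 ≤ j) ∧
    G.Colorable (s + 5 + 1) ∧ ¬ G.Colorable (s + 5) := by
  classical
  obtain ⟨V, hV, r, S, col, hs, ht, hS, hc1, hc2, hP⟩ := gadget s
  have hi : ∀ a, ¬ r a a := fun a h => hc2 a a h rfl
  refine ⟨_, inferInstance, glue (s + 3) r S hs hi, ?_, ?_, ?_, ?_, ?_⟩
  · rintro K ⟨hK, hcard⟩
    have hsum := K.card_toLeft_add_card_toRight
    have hL : ∀ a ∈ K.toLeft, ∀ b ∈ K.toLeft, a ≠ b → hadj a b := fun a ha b hb hab =>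
      hK (mem_coe.2 (mem_toLeft.1 ha)) (mem_coe.2 (mem_toLeft.1 hb)) (by simpa using hab)
    have hR : ∀ x ∈ K.toRight, ∀ y ∈ K.toRight, x ≠ y →
        x.1 = y.1 ∧ x.2.1 = y.2.1 ∧ r x.2.2 y.2.2 := fun x hx y hy hxy =>
      hK (mem_coe.2 (mem_toRight.1 hx)) (mem_coe.2 (mem_toRight.1 hy)) (by simpa using hxy)
    have hLR : ∀ a ∈ K.toLeft, ∀ y ∈ K.toRight, a ∈ tau y.1.1.1 ∨ (a = y.1.1.2 ∧ S y.2.2) :=
      fun a ha y hy =>
        hK (mem_coe.2 (mem_toLeft.1 ha)) (mem_coe.2 (mem_toRight.1 hy)) (by simp)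
    have h4 := core_clique _ hL
    have h2 : #K.toRight ≤ 2 := by
      by_contra hc
      obtain ⟨a, ha, b, hb, c, hc, h1, h2, h3⟩ := two_lt_card.1 (not_le.1 hc)
      exact ht _ _ _ (hR a ha b hb h1).2.2 (hR a ha c hc h2).2.2 (hR b hb c hc h3).2.2
    have hA : ∀ y ∈ K.toRight, ¬ S y.2.2 → #K.toLeft ≤ 2 := fun y hy hy' =>
      cands_clique _ y.1.2 _ (fun a ha => (hLR a ha y hy).resolve_right fun h => hy' h.2) hL
    have hB : ∀ y ∈ K.toRight, #K.toLeft ≤ 3 := by
      intro y hy
      have h1 : #(K.toLeft.erase y.1.1.2) ≤ 2 :=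
        cands_clique _ y.1.2 _
          (fun a ha => (hLR a (mem_of_mem_erase ha) y hy).resolve_right
            fun h => ne_of_mem_erase ha h.1)
          fun a ha b hb => hL a (mem_of_mem_erase ha) b (mem_of_mem_erase hb)
      have := pred_card_le_card_erase (s := K.toLeft) (a := y.1.1.2)
      omega
    rcases Nat.lt_or_ge 1 #K.toRight with h | h
    · obtain ⟨x, hx, y, hy, hxy⟩ := one_lt_card.1 h
      have : #K.toLeft ≤ 2 := by
        by_cases hSx : S x.2.2
        · exact hA y hy fun hSy => hS _ _ hSx hSy (hR x hx y hy hxy).2.2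
        · exact hA x hx hSx
      omega
    · obtain ⟨y, hy⟩ : K.toRight.Nonempty := card_pos.1 (by omega)
      have := hB y hy
      omega
  · refine ⟨Sum.elim (fun a => ⟨part a, by have := part_lt a; omega⟩)
      (fun y => ⟨3 + col y.2.2, by have := hc1 y.2.2; omega⟩), fun i => ?_⟩
    by_cases h3 : i.1 < 3
    · left
      rintro (a | x) ha (b | y) hb hab
      · have e1 : part a = i.1 := congrArg Fin.val ha
        have e2 : part b = i.1 := congrArg Fin.val hb
        exact part_clique a b (by simpa using hab) (e1.trans e2.symm)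
      · have e2 : 3 + col y.2.2 = i.1 := congrArg Fin.val hb
        omega
      · have e2 : 3 + col x.2.2 = i.1 := congrArg Fin.val ha
        omega
      · have e2 : 3 + col x.2.2 = i.1 := congrArg Fin.val ha
        omega
    · right
      rintro (a | x) ha (b | y) hb hab
      · have e1 : part a = i.1 := congrArg Fin.val ha
        have := part_lt a
        omega
      · have e1 : part a = i.1 := congrArg Fin.val ha
        have := part_lt a
        omega
      · have e1 : part b = i.1 := congrArg Fin.val hb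
        have := part_lt b
        omega
      · have e1 : 3 + col x.2.2 = i.1 := congrArg Fin.val ha
        have e2 : 3 + col y.2.2 = i.1 := congrArg Fin.val hb
        exact fun h => hc2 _ _ h.2.2 (by omega)
  · rintro j ⟨D, hD⟩
    by_contra hj
    have := Fintype.ofFinite V
    let t : {t // t ∈ cands} := ⟨cands.head (by decide), List.head_mem _⟩
    have hgood : ∃ i : Fin (s + 3), ∀ z : V,
        (glue (s + 3) r S hs hi).IsIndepSet (D ⁻¹' {D (Sum.inr (t, i, z))}) := by
      by_contra hcon
      push Not at hcon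
      choose x hx using hcon
      have hinj : Function.Injective fun i => D (Sum.inr (t, i, x i)) := by
        intro i i' e
        by_contra hne
        have hcl := (hD (D (Sum.inr (t, i, x i)))).resolve_right (hx i)
        have := hcl (x := Sum.inr (t, i, x i)) rfl (y := Sum.inr (t, i', x i')) e.symm
          (by simp [hne])
        exact hne this.2.1
      have := Fintype.card_le_of_injective _ hinj
      simp only [Fintype.card_fin] at this
      exact hj this
    obtain ⟨i, hind⟩ := hgood
    let P : Finset (Fin j) := univ.image fun x : V => D (Sum.inr (t, i, x))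
    let Q : Finset (Fin j) := (tau t.1.1).image fun a => D (Sum.inl a)
    have hPs : s ≤ #P := by
      by_contra hlt
      obtain ⟨a, -, ha⟩ := hP (insert j (P.map Fin.valEmbedding))
        (fun x => (D (Sum.inr (t, i, x))).1)
        ((card_insert_le _ _).trans (by rw [card_map]; omega))
        (fun a b hab e => (hind a) (x := Sum.inr (t, i, a)) rfl (y := Sum.inr (t, i, b))
          (Fin.ext e).symm (by
            intro e'
            have : a = b := by simpa using e'
            exact hi _ (this ▸ hab)) ⟨rfl, rfl, hab⟩)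
        (fun a => mem_insert_of_mem (mem_map.2 ⟨_, mem_image_of_mem _ (mem_univ a), rfl⟩))
        j (mem_insert_self _ _)
      exact (D _).2.ne ha
    have hQ : 3 ≤ #Q := by
      have h1 := card_le_mul_card_image (f := fun a => D (Sum.inl a)) (tau t.1.1) 2 (by
        intro y _
        rcases hD y with h | h
        · exact cands_clique _ t.2 _ (filter_subset _ _) fun a ha b hb hab =>
            h (x := Sum.inl a) (mem_filter.1 ha).2 (y := Sum.inl b) (mem_filter.1 hb).2
              (by simpa using hab)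
        · exact cands_indep _ t.2 _ (filter_subset _ _) fun a ha b hb hab =>
            h (x := Sum.inl a) (mem_filter.1 ha).2 (y := Sum.inl b) (mem_filter.1 hb).2
              (by simpa using hab))
      rw [(cands_card _ t.2).1] at h1
      change 5 ≤ 2 * #Q at h1
      omega
    have hdis : Disjoint P Q := by
      rw [disjoint_left]
      intro y hy hy'
      obtain ⟨x, -, rfl⟩ := mem_image.1 hy
      obtain ⟨a, ha, e⟩ := mem_image.1 hy'
      exact (hind x) (x := Sum.inl a) e (y := Sum.inr (t, i, x)) rfl (by simp) (Or.inl ha)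
    have := card_le_univ (P ∪ Q)
    rw [card_union_of_disjoint hdis, Fintype.card_fin] at this
    omega
  · rw [SimpleGraph.colorable_iff_exists_bdd_nat_coloring]
    refine ⟨SimpleGraph.Coloring.mk (Sum.elim col6 fun y => 6 + col y.2.2) ?_, ?_⟩
    · rintro (a | x) (b | y) h
      · exact col6_proper a b h
      · have := col6_lt a
        change col6 a ≠ 6 + col y.2.2
        omega
      · have := col6_lt b
        change 6 + col x.2.2 ≠ col6 b
        omega
      · have := hc2 _ _ h.2.2
        change 6 + col x.2.2 ≠ 6 + col y.2.2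
        omega
    · rintro (a | x)
      · have := col6_lt a
        change col6 a < _
        omega
      · have := hc1 x.2.2
        change 6 + col x.2.2 < _
        omega
  · rw [SimpleGraph.colorable_iff_exists_bdd_nat_coloring]
    rintro ⟨C, hC⟩
    obtain ⟨t, htc, hrb⟩ := rainbow (fun a => C (Sum.inl a)) fun a b h =>
      C.valid (v := Sum.inl a) (w := Sum.inl b) h
    let Q : Finset ℕ := (tau t.1).image fun a => C (Sum.inl a)
    have hQ : #Q = 5 := by
      rw [← (cands_card t htc).1]
      apply card_image_of_injOn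
      intro a ha b hb e
      by_contra hne
      exact hrb a (mem_insert_of_mem ha) b (mem_insert_of_mem hb) hne e
    have hQs : Q ⊆ range (s + 5) := by
      intro y hy
      obtain ⟨a, -, rfl⟩ := mem_image.1 hy
      exact mem_range.2 (hC _)
    obtain ⟨a, ha, e⟩ := hP (range (s + 5) \ Q) (fun x => C (Sum.inr (⟨t, htc⟩, 0, x)))
      (by rw [card_sdiff_of_subset hQs, card_range, hQ]; omega)
      (fun a b hab => C.valid (v := Sum.inr (⟨t, htc⟩, 0, a)) (w := Sum.inr (⟨t, htc⟩, 0, b))
        ⟨rfl, rfl, hab⟩)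
      (fun x => mem_sdiff.2 ⟨mem_range.2 (hC _), fun h => by
        obtain ⟨a, ha, e⟩ := mem_image.1 h
        exact C.valid (v := Sum.inl a) (w := Sum.inr (⟨t, htc⟩, 0, x)) (Or.inl ha) e⟩)
      (C (Sum.inl t.2)) (mem_sdiff.2 ⟨mem_range.2 (hC _), fun h => by
        obtain ⟨a, ha, e⟩ := mem_image.1 h
        exact hrb a (mem_insert_of_mem ha) t.2 (mem_insert_self _ _)
          (fun e' => (cands_card t htc).2 (e' ▸ ha)) e⟩)
    exact C.valid (v := Sum.inr (⟨t, htc⟩, 0, a)) (w := Sum.inl t.2) (Or.inr ⟨rfl, ha⟩) e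

end Pool.Agent.P.MP_a38e10_co
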